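import Pool.Agent.helper54.V3.SpecE

set_option autoImplicit false

open Complex Metric Set Filter Topology MeasureTheory

namespace V3

theorem CHF (hCHP : CHP_stmt) : CHF_stmt := by
  intro m γ F a hC hF hFa
  -- the curves avoid a
  have hne : ∀ j < m, ∀ s ∈ Icc (0 : ℝ) 1, γ j s - a ≠ 0 := by
    intro j hj s hs h0
    have h1 := hF j hj s hs
    rw [sub_eq_zero.mp h0, hFa, zero_sub, norm_neg, norm_one] at h1
    norm_num at h1
  have hd : ∀ j < m, ContinuousOn (fun s => derivWithin (γ j) (Icc 0 1) s) (Icc (0 : ℝ) 1) :=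
    fun j hj => (hC.c1 j hj).continuousOn_derivWithin (uniqueDiffOn_Icc (by norm_num)) le_rfl
  have hg : ∀ j < m, ContinuousOn (γ j) (Icc (0 : ℝ) 1) := fun j hj => (hC.c1 j hj).continuousOn
  have hG : ∀ j < m, ContinuousOn (fun s => derivWithin (γ j) (Icc 0 1) s / (γ j s - a))
      (Icc (0 : ℝ) 1) := fun j hj =>
    (hd j hj).div ((hg j hj).sub continuousOn_const) (hne j hj)
  have hK : ∀ j, ∃ K : ℝ, j < m → ∀ s ∈ Icc (0 : ℝ) 1,
      ‖derivWithin (γ j) (Icc 0 1) s / (γ j s - a)‖ ≤ K := by
    intro j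
    by_cases hj : j < m
    · obtain ⟨K, hK⟩ := isCompact_Icc.exists_bound_of_continuousOn (hG j hj)
      exact ⟨K, fun _ => hK⟩
    · exact ⟨0, fun h => absurd h hj⟩
  choose K hK using hK
  have h01 : uIcc (0 : ℝ) 1 = Icc 0 1 := uIcc_of_le (by norm_num)
  set P : Polynomial ℂ := 1 - F with hP
  have hkey : ∀ M : ℕ, chi m γ (fun z => 1 / (z - a)) =
      ∑ j ∈ Finset.range m, ∫ s in (0 : ℝ)..1,
        (P.eval (γ j s)) ^ M * (derivWithin (γ j) (Icc 0 1) s / (γ j s - a)) := by
    intro M
    obtain ⟨Q, hQ⟩ : ∃ Q : Polynomial ℂ, P ^ M - 1 = (Polynomial.X - Polynomial.C a) * Q := by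
      apply Polynomial.dvd_iff_isRoot.mpr
      simp [Polynomial.IsRoot, hP, hFa]
    have hQe : ∀ z, (P.eval z) ^ M - 1 = (z - a) * Q.eval z := by
      intro z
      have := congrArg (Polynomial.eval z) hQ
      simpa using this
    have hz := hCHP m γ Q hC
    unfold chi at hz ⊢
    have hsum : ∀ j ∈ Finset.range m,
        ∫ s in (0 : ℝ)..1, 1 / (γ j s - a) * derivWithin (γ j) (Icc 0 1) s =
        (∫ s in (0 : ℝ)..1,
          (P.eval (γ j s)) ^ M * (derivWithin (γ j) (Icc 0 1) s / (γ j s - a))) -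
        ∫ s in (0 : ℝ)..1, Q.eval (γ j s) * derivWithin (γ j) (Icc 0 1) s := by
      intro j hj
      have hj' := Finset.mem_range.mp hj
      rw [← intervalIntegral.integral_sub]
      · apply intervalIntegral.integral_congr
        intro s hs
        rw [h01] at hs
        have h1 := hne j hj' s hs
        have h2 := hQe (γ j s)
        simp only
        field_simp
        linear_combination (-(derivWithin (γ j) (Icc 0 1) s)) * h2
      · apply ContinuousOn.intervalIntegrable
        rw [h01]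
        exact ((P.continuous.comp_continuousOn (hg j hj')).pow M).mul (hG j hj')
      · apply ContinuousOn.intervalIntegrable
        rw [h01]
        exact (Q.continuous.comp_continuousOn (hg j hj')).mul (hd j hj')
    rw [Finset.sum_congr rfl hsum, Finset.sum_sub_distrib, hz, sub_zero]
  have hbound : ∀ M : ℕ, ‖chi m γ (fun z => 1 / (z - a))‖ ≤
      (∑ j ∈ Finset.range m, |K j|) * (1 / 2 : ℝ) ^ M := by
    intro M
    rw [hkey M, Finset.sum_mul]
    refine (norm_sum_le _ _).trans (Finset.sum_le_sum fun j hj => ?_)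
    have hj' := Finset.mem_range.mp hj
    have h1 : ∀ s ∈ uIoc (0 : ℝ) 1,
        ‖(P.eval (γ j s)) ^ M * (derivWithin (γ j) (Icc 0 1) s / (γ j s - a))‖ ≤
          |K j| * (1 / 2 : ℝ) ^ M := by
      intro s hs
      have hs' : s ∈ Icc (0 : ℝ) 1 := by
        rw [← h01]
        exact uIoc_subset_uIcc hs
      rw [norm_mul, norm_pow, mul_comm]
      have h2 : ‖P.eval (γ j s)‖ ≤ 1 / 2 := by
        have := hF j hj' s hs'
        rw [hP, Polynomial.eval_sub, Polynomial.eval_one, ← norm_neg, neg_sub]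
        exact this
      exact mul_le_mul ((hK j hj' s hs').trans (le_abs_self _))
        (pow_le_pow_left₀ (norm_nonneg _) h2 M) (by positivity) (abs_nonneg _)
    have h2 := intervalIntegral.norm_integral_le_of_norm_le_const h1
    simpa using h2
  have hlim : Tendsto (fun M : ℕ => (∑ j ∈ Finset.range m, |K j|) * (1 / 2 : ℝ) ^ M) atTop (𝓝 0) := by
    have := (tendsto_pow_atTop_nhds_zero_of_lt_one (r := (1 / 2 : ℝ)) (by norm_num)
      (by norm_num)).const_mul (∑ j ∈ Finset.range m, |K j|)
    simpa using this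
  have h0 : ‖chi m γ (fun z => 1 / (z - a))‖ ≤ 0 := ge_of_tendsto' hlim hbound
  exact norm_le_zero_iff.mp h0

end V3
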