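import Pool.Agent.helper54.V3.SpecE

set_option autoImplicit false

open Complex Metric Set Filter Topology MeasureTheory

namespace V3

theorem ENB_norm (θ : ℂ) (B q : ℂ → ℂ) (x : ℂ) (hθ : ‖θ‖ = 1) :
    ‖θ * q x * (((‖B x‖ : ℝ) : ℂ) / B x)‖ ≤ ‖q x‖ := by
  rw [norm_mul, norm_mul, hθ, one_mul, norm_div, Complex.norm_real, norm_norm]
  by_cases hB : B x = 0
  · rw [hB]
    simp
  · rw [div_self (norm_ne_zero_iff.mpr hB), mul_one]

theorem ENB (hPCO : PCO_stmt) : ENB_stmt := by
  intro P A g B v q θ h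
  have hn : ∀ x, ‖θ * q x * (((‖B x‖ : ℝ) : ℂ) / B x)‖ ≤ ‖q x‖ := fun x => ENB_norm θ B q x h.th
  have hb : ∀ x, 0 ≤ En θ B q x ∧ En θ B q x ≤ 2 * ‖q x‖ := by
    intro x
    have h1 := (abs_le.mp ((Complex.abs_re_le_norm _).trans (hn x)))
    unfold En
    constructor <;> linarith [h1.1, h1.2]
  obtain ⟨s, hs, hsep⟩ := h.sep
  obtain ⟨hcl, hcount, -⟩ := hPCO P s hs hsep
  have hBm : Measurable B := by
    refine measurable_of_restrict_of_restrict_compl hcl.measurableSet ?_ ?_
    · have : Countable P := hcount.to_subtype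
      exact measurable_of_countable _
    · exact (h.Bd.continuousOn.domRestrict).measurable
  have hqc : Continuous q := h.qd.continuous
  have hm : Measurable (En θ B q) := by
    unfold En
    have hqm : Measurable q := hqc.measurable
    have h1 : Measurable (fun x => ((‖B x‖ : ℝ) : ℂ)) := Complex.measurable_ofReal.comp hBm.norm
    have h2 : Measurable (fun x => θ * q x * (((‖B x‖ : ℝ) : ℂ) / B x)) :=
      (hqm.const_mul θ).mul (h1.div hBm)
    exact hqm.norm.sub (Complex.measurable_re.comp h2)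
  refine ⟨hb, hm, fun R => ?_⟩
  have h3 : IntegrableOn (fun x => 2 * ‖q x‖) (ball (0 : ℂ) R) :=
    ((continuous_const.mul hqc.norm).continuousOn.integrableOn_compact
      (isCompact_closedBall (0 : ℂ) R)).mono_set ball_subset_closedBall
  refine Integrable.mono' h3 hm.aestronglyMeasurable ?_
  refine Filter.Eventually.of_forall fun x => ?_
  rw [Real.norm_eq_abs, abs_of_nonneg (hb x).1]
  exact (hb x).2

end V3
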