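import Pool.Agent.helper36.V3.SpecS

set_option autoImplicit false

open Complex Metric Set Filter Topology MeasureTheory MPS

noncomputable section

namespace PPS

theorem S3G_cn (n : ℕ) (hn : 2 ≤ n) : 1 ≤ cn n := by
  unfold cn
  have h1 : (1 : ℝ) ≤ (4 : ℝ) ^ (40 + 2 * n) := one_le_pow₀ (by norm_num)
  have h2 : (1 : ℝ) ≤ n := by
    have : 1 ≤ n := by omega
    exact_mod_cast this
  have h3 : (1 : ℝ) ≤ (n : ℝ) ^ 2 := one_le_pow₀ h2
  nlinarith

theorem S3G : S3G_stmt := by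
  intro n k _ f b g R ε h r₀ χ G0 PP M hS
  have hh := hS.h0
  have h0mem : (0 : ℂ) ∈ ball (0 : ℂ) (16 * h) := mem_ball_self (by linarith)
  have hd0 : deriv χ 0 ≠ 0 := by
    intro h0
    have h1 := hS.nat.eq 0 h0mem
    rw [h0] at h1
    simp at h1
  have hs : 0 < ‖deriv χ 0‖ := norm_pos_iff.mpr hd0
  have key : ∀ w ∈ ball (0 : ℂ) (16 * h), ∀ w' ∈ ball (0 : ℂ) (16 * h),
      ‖(χ w - deriv χ 0 * w) - (χ w' - deriv χ 0 * w')‖ ≤ ‖deriv χ 0‖ / 10 * ‖w - w'‖ := by
    intro w hw w' hw'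
    refine Convex.norm_image_sub_le_of_norm_hasDerivWithin_le
      (f := fun z => χ z - deriv χ 0 * z) (f' := fun z => deriv χ z - deriv χ 0)
      (s := ball (0 : ℂ) (16 * h)) ?_ (fun z hz => hS.aff z hz) (convex_ball _ _) hw' hw
    intro z hz
    have h1 : HasDerivAt χ (deriv χ z) z :=
      ((hS.nat.diff z hz).differentiableAt (isOpen_ball.mem_nhds hz)).hasDerivAt
    have h2 : HasDerivAt (fun z : ℂ => deriv χ 0 * z) (deriv χ 0) z := by
      simpa using (hasDerivAt_id z).const_mul (deriv χ 0)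
    exact (h1.sub h2).hasDerivWithinAt
  refine ⟨hs, ?_, ?_, ?_, ?_, ?_, ?_, ?_, ?_⟩
  · intro w hw w' hw' he
    have h1 := key w hw w' hw'
    rw [he] at h1
    have h2 : (χ w' - deriv χ 0 * w) - (χ w' - deriv χ 0 * w') = -(deriv χ 0 * (w - w')) := by ring
    rw [h2, norm_neg, norm_mul] at h1
    have h3 : ‖deriv χ 0‖ * ‖w - w'‖ ≤ 0 := by nlinarith [mul_nonneg hs.le (norm_nonneg (w - w'))]
    have h4 : ‖w - w'‖ ≤ 0 := by
      by_contra h5
      push Not at h5
      nlinarith [mul_pos hs h5]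
    exact sub_eq_zero.mp (norm_le_zero_iff.mp h4)
  · intro w hw
    have h1 := key w hw 0 h0mem
    have h2 : χ w - χ 0 = ((χ w - deriv χ 0 * w) - (χ 0 - deriv χ 0 * 0)) + deriv χ 0 * w := by ring
    rw [h2]
    refine (norm_add_le _ _).trans ?_
    rw [norm_mul]
    rw [sub_zero] at h1
    linarith
  · have h1 : 0 ≤ Real.log ‖rho f b‖ := Real.log_nonneg hS.rho1.le
    have h2 : 0 ≤ ∫ z in ball (0 : ℂ) R, ‖er f b g z‖ := integral_nonneg fun _ => norm_nonneg _
    have h3 := hS.hE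
    have h4 : 0 ≤ 2 * Real.pi * Real.log ‖rho f b‖ := by positivity
    linarith
  all_goals
    have hn1 : (1 : ℝ) ≤ n := by
      have : 1 ≤ n := by have := hS.hn; omega
      exact_mod_cast this
    have hM0 : (0 : ℝ) ≤ M := Nat.cast_nonneg M
    have hden : 0 < 16 * ((M : ℝ) + 1) * n := by positivity
  · unfold d3
    exact lt_min hS.r0 (div_pos hh hden)
  · exact min_le_left _ _
  · exact min_le_right _ _
  · unfold e3
    have h1 : 0 < d3 n M h r₀ := lt_min hS.r0 (div_pos hh hden)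
    have h2 := S3G_cn n hS.hn
    positivity
  · have h1 : 0 < d3 n M h r₀ := lt_min hS.r0 (div_pos hh hden)
    have h2 := S3G_cn n hS.hn
    have h3 : d3 n M h r₀ ≤ h / 16 := by
      refine (min_le_right _ _).trans ?_
      apply div_le_div_of_nonneg_left hh.le (by norm_num)
      nlinarith
    have h4 : d3 n M h r₀ ^ 2 ≤ h ^ 2 / 256 := by
      have := pow_le_pow_left₀ h1.le h3 2
      rw [div_pow] at this
      norm_num at this
      exact this
    unfold e3
    rw [div_le_div_iff₀ (by positivity) (by positivity)]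
    have h5 : h ^ 2 * ((M : ℝ) + 5) ≤ h ^ 2 * (cn n * (M + 5)) := by
      apply mul_le_mul_of_nonneg_left _ (by positivity)
      nlinarith
    calc d3 n M h r₀ ^ 2 * (256 * ((M : ℝ) + 5)) ≤ h ^ 2 / 256 * (256 * (M + 5)) :=
          mul_le_mul_of_nonneg_right h4 (by positivity)
      _ = h ^ 2 * (M + 5) := by ring
      _ ≤ h ^ 2 * (cn n * (M + 5)) := h5

end PPS
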